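import Pool.Agent.U435.MMD.Main

/-!
# The mixed metric dimension of a two-connected graph is at most twice its cyclomatic number

Every two-connected graph which is not a cycle has mixed metric dimension at most `2 c(G)`.

Proof. Take a breadth-first tree `T` with root `r` and let `S` be the set of ends of the `c(G)`
non-tree edges. Then `S ∪ {r}` is a mixed resolving set. If two non-tree edges share an end, it has
at most `2 c(G)` elements. Otherwise one element of `S` can be dropped: if some non-tree edge joins
two levels, its upper end when the lower end is a leaf of `T`, and the lower end when that is not a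
leaf; if all non-tree edges are horizontal, an element of `S` which is not a leaf, and if they are
all leaves, an end of a non-tree edge whose chain up to the first branching is not longer than
the one of the other end.
-/

set_option autoImplicit false

namespace Pool.Agent.Results.MP_ca4ce9_co.TwoConnectedBound

open SimpleGraph Pool.Agent.U435.MMD

universe u

variable {V : Type u}

/-- The distance from the vertex `w` to an element of `V(G) ∪ E(G)`: the graph distance to a
vertex, and `d(w, uv) = min (d(w, u)) (d(w, v))` for an edge `uv`. -/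
noncomputable def elemDist (G : SimpleGraph V) (w : V) : V ⊕ G.edgeSet → ℕ
  | Sum.inl v => G.dist w v
  | Sum.inr e => Sym2.lift ⟨fun u v => min (G.dist w u) (G.dist w v), fun _ _ => min_comm _ _⟩ e.1

/-- `S` is a mixed resolving set of `G`: any two different elements of `V(G) ∪ E(G)` have
different distances to some vertex of `S`. -/
def IsMixedResolving (G : SimpleGraph V) (S : Finset V) : Prop :=
  ∀ x y : V ⊕ G.edgeSet, x ≠ y → ∃ s ∈ S, elemDist G s x ≠ elemDist G s y

/-- The mixed metric dimension: the smallest size of a mixed resolving set. -/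
noncomputable def mdim (G : SimpleGraph V) : ℕ :=
  sInf {k : ℕ | ∃ S : Finset V, IsMixedResolving G S ∧ S.card = k}

/-- The cyclomatic number `m - n + 1`. -/
def cyclomatic [Fintype V] [DecidableEq V] (G : SimpleGraph V) [DecidableRel G.Adj] : ℤ :=
  (G.edgeFinset.card : ℤ) - (Fintype.card V : ℤ) + 1

/-- `G` is two-connected: it is connected, has at least three vertices and no cut-vertex. -/
def TwoConnected [Fintype V] (G : SimpleGraph V) : Prop :=
  3 ≤ Fintype.card V ∧ G.Connected ∧ ∀ w : V, (G.induce ({w}ᶜ : Set V)).Connected

theorem degree_two_le [Fintype V] [DecidableEq V] {G : SimpleGraph V} [DecidableRel G.Adj]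
    (h : TwoConnected G) (v : V) : 2 ≤ G.degree v := by
  classical
  obtain ⟨h3, hc, h2⟩ := h
  by_contra hcon
  have hle : (G.neighborFinset v).card ≤ 1 := by
    rw [card_neighborFinset_eq_degree]; omega
  -- all neighbours of `v` are equal to `w ≠ v`
  obtain ⟨w, hwv, hw⟩ : ∃ w, w ≠ v ∧ ∀ x, G.Adj v x → x = w := by
    by_cases hne : (G.neighborFinset v).Nonempty
    · obtain ⟨w, hw⟩ := hne
      have hadj : G.Adj v w := by rwa [mem_neighborFinset] at hw
      refine ⟨w, hadj.ne.symm, fun x hx => ?_⟩
      exact Finset.card_le_one.mp hle x (by rwa [mem_neighborFinset]) w hw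
    · obtain ⟨w, hw⟩ := Fintype.exists_ne_of_one_lt_card (by omega) v
      refine ⟨w, hw, fun x hx => ?_⟩
      exact absurd ⟨x, by rwa [mem_neighborFinset]⟩ hne
  obtain ⟨z, hz⟩ : ∃ z, z ∉ ({v, w} : Finset V) := by
    by_contra hall
    push Not at hall
    have h1 : Fintype.card V ≤ ({v, w} : Finset V).card :=
      Finset.card_le_card (fun x _ => hall x)
    have h4 : ({v, w} : Finset V).card ≤ 2 := Finset.card_le_two
    omega
  rw [Finset.mem_insert, Finset.mem_singleton, not_or] at hz
  obtain ⟨q⟩ := (h2 w).preconnected ⟨v, hwv.symm⟩ ⟨z, hz.2⟩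
  obtain ⟨d, -, hd1, hd2⟩ := q.exists_boundary_dart {t | t.1 = v} rfl hz.1
  have hadj : G.Adj d.fst.1 d.snd.1 := d.adj
  have h1 : d.fst.1 = v := hd1
  rw [h1] at hadj
  exact d.snd.2 (hw _ hadj)

theorem result [Fintype V] [DecidableEq V] (G : SimpleGraph V) [DecidableRel G.Adj]
    (h2 : TwoConnected G) (hC : ¬ ∃ n : ℕ, Nonempty (G ≃g cycleGraph n)) :
    (∃ S : Finset V, IsMixedResolving G S) ∧ (mdim G : ℤ) ≤ 2 * cyclomatic G := by
  have hdeg := degree_two_le h2
  have h3 : ∃ v, 3 ≤ G.degree v := by
    by_contra hcon
    push Not at hcon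
    exact hC (Pool.Agent.Helper431.exists_iso_cycleGraph h2.2.1 hdeg
      (fun v => Nat.le_of_lt_succ (hcon v)))
  obtain ⟨A, hcard, hA⟩ := main h2.2.1 (fun w => (h2.2.2 w).preconnected) hdeg h3
  have hres : IsMixedResolving G A := by
    intro x y hxy
    rcases x with x | ⟨e, he⟩ <;> rcases y with y | ⟨f, hf⟩
    · obtain ⟨s, hs, h⟩ := hA x x y y (Or.inl rfl) (Or.inl rfl) (by
        intro h
        apply hxy
        rcases Sym2.eq_iff.mp h with h | h <;> rw [h.1])
      exact ⟨s, hs, by simpa [elemDist] using h⟩
    · induction f with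
      | _ c d =>
        have hcd : G.Adj c d := hf
        obtain ⟨s, hs, h⟩ := hA x x c d (Or.inl rfl) (Or.inr hcd) (by
          intro h
          rcases Sym2.eq_iff.mp h with ⟨h1, h4⟩ | ⟨h1, h4⟩
          · exact hcd.ne (h1.symm.trans h4)
          · exact hcd.ne (h4.symm.trans h1))
        exact ⟨s, hs, by simpa [elemDist] using h⟩
    · induction e with
      | _ a b =>
        have hab : G.Adj a b := he
        obtain ⟨s, hs, h⟩ := hA a b y y (Or.inr hab) (Or.inl rfl) (by
          intro h
          rcases Sym2.eq_iff.mp h with ⟨h1, h4⟩ | ⟨h1, h4⟩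
          · exact hab.ne (h1.trans h4.symm)
          · exact hab.ne (h1.trans h4.symm))
        exact ⟨s, hs, by simpa [elemDist] using h⟩
    · induction e with
      | _ a b =>
        induction f with
        | _ c d =>
          have hab : G.Adj a b := he
          have hcd : G.Adj c d := hf
          obtain ⟨s, hs, h⟩ := hA a b c d (Or.inr hab) (Or.inr hcd) (by
            intro h
            apply hxy
            simp only [h])
          exact ⟨s, hs, by simpa [elemDist] using h⟩
  refine ⟨⟨A, hres⟩, ?_⟩
  have h1 : mdim G ≤ A.card := Nat.sInf_le ⟨A, hres, rfl⟩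
  unfold cyclomatic
  omega

end Pool.Agent.Results.MP_ca4ce9_co.TwoConnectedBound
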